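import Pool.Agent.T9h45.SF.Gap

set_option autoImplicit false
set_option linter.unusedSectionVars false

/-! # Cayley graphs of conjugation invariant sets -/

namespace Pool.Agent.T9h45.SF

open Finset

section cls

variable {Γ : Type} [Group Γ] [Fintype Γ] [DecidableEq Γ]

open Classical in
/-- the conjugates of `s` under the subgroup `A` -/
noncomputable def cj (A : Subgroup Γ) (s : Γ) : Finset Γ :=
  univ.filter fun z => ∃ a ∈ A, z = a * s * a⁻¹

theorem mem_cj {A : Subgroup Γ} {s z : Γ} : z ∈ cj A s ↔ ∃ a ∈ A, z = a * s * a⁻¹ := by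
  classical
  unfold cj
  rw [mem_filter]; exact and_iff_right (mem_univ _)

theorem cj_mul {A : Subgroup Γ} {x : Γ} (hx : ∀ a ∈ A, a * x = x * a) (s : Γ) :
    cj A (x * s) = (cj A s).image (x * ·) := by
  ext z
  rw [mem_cj, mem_image]
  constructor
  · rintro ⟨a, ha, rfl⟩
    refine ⟨a * s * a⁻¹, mem_cj.mpr ⟨a, ha, rfl⟩, ?_⟩
    show x * (a * s * a⁻¹) = a * (x * s) * a⁻¹
    rw [← mul_assoc a x s, hx a ha]
    group
  · rintro ⟨w, hw, rfl⟩
    obtain ⟨a, ha, rfl⟩ := mem_cj.mp hw
    refine ⟨a, ha, ?_⟩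
    rw [← mul_assoc a x s, hx a ha]
    group

open Classical in
/-- **Cayley graphs of conjugation invariant sets.** -/
theorem cls (G : SimpleGraph Γ) (S : Set Γ) (hG : ∀ x y, G.Adj x y ↔ x⁻¹ * y ∈ S)
    (hS : ∀ g, ∀ s ∈ S, g * s * g⁻¹ ∈ S) {r : ℕ}
    (hfree : (completeBipartiteGraph (Fin r) (Fin r)).Free G)
    (A C : Subgroup Γ) (hAC : ∀ a ∈ A, ∀ c ∈ C, a * c = c * a) :
    (univ.filter fun s => s ∈ S ∧ r ≤ (cj A s).card).card * (univ.filter (· ∈ C)).card ≤
      (r - 1) * Fintype.card Γ := by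
  set T := univ.filter fun s => s ∈ S ∧ r ≤ (cj A s).card with hT
  set D := univ.filter (· ∈ C) with hD
  set P := (D ×ˢ (univ : Finset Γ)).filter fun p => r ≤ (cj A p.2).card ∧ G.Adj p.1 p.2 with hP
  have h1 : T.card * D.card ≤ P.card := by
    rw [← card_product]
    refine card_le_card_of_injOn (fun p => (p.2, p.2 * p.1)) ?_ ?_
    · intro p hp
      have hp' := mem_product.mp (mem_coe.mp hp)
      have hs := (mem_filter.mp hp'.1).2
      have hc := (mem_filter.mp hp'.2).2
      rw [mem_coe, hP, mem_filter, mem_product]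
      refine ⟨⟨hp'.2, mem_univ _⟩, ?_, ?_⟩
      · show r ≤ (cj A (p.2 * p.1)).card
        rw [cj_mul (fun a ha => hAC a ha _ hc), card_image_of_injective _ (mul_right_injective _)]
        exact hs.2
      · show G.Adj p.2 (p.2 * p.1)
        rw [hG, inv_mul_cancel_left]
        exact hs.1
    · rintro ⟨s, x⟩ _ ⟨s', x'⟩ _ h
      simp only [Prod.mk.injEq] at h
      obtain ⟨rfl, h⟩ := h
      rw [mul_left_cancel h]
  have h2 : P.card ≤ (r - 1) * Fintype.card Γ := by
    rw [hP, card_filter, sum_product_right, mul_comm, ← card_univ, ← smul_eq_mul, ← sum_const]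
    refine sum_le_sum fun y _ => ?_
    rw [← card_filter]
    by_contra hcon
    push Not at hcon
    set X := D.filter fun x => r ≤ (cj A y).card ∧ G.Adj x y with hX
    obtain ⟨x0, hx0⟩ : X.Nonempty := card_pos.mp (by omega)
    refine not_free G X (cj A y) (by omega) (mem_filter.mp hx0).2.1 ?_ hfree
    intro x hx z hz
    obtain ⟨a, ha, rfl⟩ := mem_cj.mp hz
    have hx' := mem_filter.mp hx
    have hc : x ∈ C := (mem_filter.mp hx'.1).2
    have h3 := hS a _ ((hG x y).mp hx'.2.2)
    rw [hG]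
    have h4 : a * x⁻¹ = x⁻¹ * a := hAC a ha _ (C.inv_mem hc)
    have h5 : x⁻¹ * (a * y * a⁻¹) = a * (x⁻¹ * y) * a⁻¹ := by
      rw [← mul_assoc a x⁻¹ y, h4]
      group
    rw [h5]
    exact h3
  exact h1.trans h2

end cls

section sym

variable {α : Type} [Fintype α] [DecidableEq α]

/-- the permutations which fix all points of `K` -/
def fx (K : Finset α) : Subgroup (Equiv.Perm α) where
  carrier := {σ | ∀ a ∈ K, σ a = a}
  one_mem' := fun a _ => rfl
  mul_mem' := by
    intro σ τ hσ hτ a ha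
    rw [Equiv.Perm.mul_apply, hτ a ha, hσ a ha]
  inv_mem' := by
    intro σ hσ a ha
    rw [Equiv.Perm.inv_eq_iff_eq, hσ a ha]

theorem mem_fx {K : Finset α} {σ : Equiv.Perm α} : σ ∈ fx K ↔ ∀ a ∈ K, σ a = a := Iff.rfl

open Classical in
theorem card_fx (K : Finset α) :
    (univ.filter (· ∈ fx K)).card = (Fintype.card α - K.card).factorial := by
  have h := Fintype.card_congr (Equiv.Perm.subtypeEquivSubtypePerm fun a : α => a ∉ K)
  rw [Fintype.card_perm] at h
  have h2 : Fintype.card {a : α // a ∉ K} = Fintype.card α - K.card := by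
    rw [Fintype.card_subtype_compl, Fintype.card_coe]
  rw [← h2, h, Fintype.card_subtype]
  congr 1
  ext σ
  rw [mem_filter, mem_filter, mem_fx]
  simp

theorem comm_fx (K : Finset α) {σ τ : Equiv.Perm α} (hσ : σ ∈ fx Kᶜ) (hτ : τ ∈ fx K) :
    σ * τ = τ * σ := by
  have : Equiv.Perm.Disjoint σ τ := by
    intro a
    by_cases ha : a ∈ K
    · exact Or.inr (hτ a ha)
    · exact Or.inl (hσ a (mem_compl.mpr ha))
  exact this.commute

theorem orbit_big {K : Finset α} {r : ℕ} (hK : K.card = r + 1) {s : Equiv.Perm α} {a : α}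
    (ha : a ∈ K) (hs : s a ≠ a) : r ≤ (cj (fx Kᶜ) s).card := by
  have hsw : ∀ x ∈ K, ∀ y ∈ K, Equiv.swap x y ∈ fx (Kᶜ) := by
    intro x hx y hy z hz
    rw [mem_compl] at hz
    exact Equiv.swap_apply_of_ne_of_ne (fun h => hz (h ▸ hx)) (fun h => hz (h ▸ hy))
  by_cases hb : s a ∈ K
  · have h1 : (K.erase a).card = r := by rw [card_erase_of_mem ha, hK]; omega
    rw [← h1]
    refine card_le_card_of_injOn (fun c => Equiv.swap (s a) c * s * (Equiv.swap (s a) c)⁻¹) ?_ ?_
    · intro c hc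
      have hc' := mem_erase.mp (mem_coe.mp hc)
      exact mem_coe.mpr (mem_cj.mpr ⟨_, hsw _ hb _ hc'.2, rfl⟩)
    · have key : ∀ c ∈ K.erase a, (Equiv.swap (s a) c * s * (Equiv.swap (s a) c)⁻¹) a = c := by
        intro c hc
        have hc' := mem_erase.mp hc
        rw [Equiv.swap_inv, Equiv.Perm.mul_apply, Equiv.Perm.mul_apply,
          Equiv.swap_apply_of_ne_of_ne hs.symm hc'.1.symm, Equiv.swap_apply_left]
      intro c hc c' hc' h
      rw [← key c hc, ← key c' hc']
      exact congrArg (fun σ : Equiv.Perm α => σ a) h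
  · have h1 : r ≤ K.card := by omega
    refine h1.trans ?_
    refine card_le_card_of_injOn (fun c => Equiv.swap a c * s * (Equiv.swap a c)⁻¹) ?_ ?_
    · intro c hc
      exact mem_coe.mpr (mem_cj.mpr ⟨_, hsw _ ha _ hc, rfl⟩)
    · have key : ∀ c ∈ K, (Equiv.swap a c * s * (Equiv.swap a c)⁻¹) c = s a := by
        intro c hc
        rw [Equiv.swap_inv, Equiv.Perm.mul_apply, Equiv.Perm.mul_apply, Equiv.swap_apply_right,
          Equiv.swap_apply_of_ne_of_ne hs (fun h => hb (h ▸ hc))]
      intro c hc c' hc' h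
      have h2 := key c hc
      have h3 := key c' hc'
      have h4 : (Equiv.swap a c * s * (Equiv.swap a c)⁻¹) =
        (Equiv.swap a c' * s * (Equiv.swap a c')⁻¹) := h
      rw [h4, ← h3] at h2
      exact (Equiv.injective _ h2)

open Classical in
theorem sym_point (G : SimpleGraph (Equiv.Perm α)) (S : Set (Equiv.Perm α))
    (hG : ∀ x y, G.Adj x y ↔ x⁻¹ * y ∈ S) (hS : ∀ g, ∀ s ∈ S, g * s * g⁻¹ ∈ S) {r : ℕ}
    (hfree : (completeBipartiteGraph (Fin r) (Fin r)).Free G) (hm : r + 1 ≤ Fintype.card α)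
    (a : α) : (univ.filter fun s => s ∈ S ∧ s a ≠ a).card ≤
      (r - 1) * Fintype.card α ^ (r + 1) := by
  obtain ⟨K, hK1, hK2⟩ : ∃ K : Finset α, a ∈ K ∧ K.card = r + 1 := by
    obtain ⟨K, h1, -, h3⟩ := exists_subsuperset_card_eq (s := {a}) (t := (univ : Finset α))
      (n := r + 1) (subset_univ _) (by rw [card_singleton]; omega) (by rw [card_univ]; exact hm)
    exact ⟨K, h1 (mem_singleton_self a), h3⟩
  have h1 := cls G S hG hS hfree (fx Kᶜ) (fx K) (fun σ hσ τ hτ => comm_fx K hσ hτ)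
  rw [card_fx, hK2, Fintype.card_perm] at h1
  have h2 : (univ.filter fun s => s ∈ S ∧ s a ≠ a).card ≤
      (univ.filter fun s => s ∈ S ∧ r ≤ (cj (fx Kᶜ) s).card).card := by
    apply card_le_card
    intro s hs
    rw [mem_filter] at hs ⊢
    exact ⟨hs.1, hs.2.1, orbit_big hK2 hK1 hs.2.2⟩
  have h3 := Nat.factorial_mul_descFactorial hm
  have h4 : (univ.filter fun s => s ∈ S ∧ s a ≠ a).card * (Fintype.card α - (r + 1)).factorial ≤
      ((r - 1) * (Fintype.card α).descFactorial (r + 1)) *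
        (Fintype.card α - (r + 1)).factorial := by
    calc _ ≤ _ := Nat.mul_le_mul_right _ h2
      _ ≤ _ := h1
      _ = _ := by rw [← h3]; ring
  exact (Nat.le_of_mul_le_mul_right h4 (Nat.factorial_pos _)).trans
    (Nat.mul_le_mul_left _ (Nat.descFactorial_le_pow _ _))

open Classical in
/-- **Symmetric groups.** -/
theorem sym (G : SimpleGraph (Equiv.Perm α)) (S : Set (Equiv.Perm α))
    (hG : ∀ x y, G.Adj x y ↔ x⁻¹ * y ∈ S) (hS : ∀ g, ∀ s ∈ S, g * s * g⁻¹ ∈ S) {r : ℕ}
    (hr : 2 ≤ r) (hfree : (completeBipartiteGraph (Fin r) (Fin r)).Free G) :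
    (univ.filter (· ∈ S)).card ≤ (r - 1) * Fintype.card α ^ (r + 2) := by
  have h1 : (1 : Equiv.Perm α) ∉ S := by
    intro h
    have := (hG 1 1).mpr (by simpa using h)
    exact G.loopless.irrefl 1 this
  by_cases hm : r + 1 ≤ Fintype.card α
  · have h2 : univ.filter (· ∈ S) ⊆
        (univ : Finset α).biUnion fun a => univ.filter fun s => s ∈ S ∧ s a ≠ a := by
      intro s hs
      rw [mem_filter] at hs
      obtain ⟨a, ha⟩ : ∃ a, s a ≠ a := by
        by_contra hcon
        push Not at hcon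
        apply h1
        have : s = 1 := Equiv.ext hcon
        rw [← this]; exact hs.2
      rw [mem_biUnion]
      exact ⟨a, mem_univ _, mem_filter.mpr ⟨mem_univ _, hs.2, ha⟩⟩
    calc (univ.filter (· ∈ S)).card ≤ _ := card_le_card h2
      _ ≤ ∑ a : α, (univ.filter fun s => s ∈ S ∧ s a ≠ a).card := card_biUnion_le
      _ ≤ ∑ _a : α, (r - 1) * Fintype.card α ^ (r + 1) :=
        sum_le_sum fun a _ => sym_point G S hG hS hfree hm a
      _ = (r - 1) * Fintype.card α ^ (r + 2) := by
        rw [sum_const, card_univ, smul_eq_mul]; ring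
  · rcases Nat.eq_zero_or_pos (Fintype.card α) with h0 | h0
    · have : IsEmpty α := Fintype.card_eq_zero_iff.mp h0
      have h3 : (univ.filter (· ∈ S)) = ∅ := by
        rw [filter_eq_empty_iff]
        intro s _ hs
        apply h1
        have : s = 1 := Equiv.ext fun a => (IsEmpty.false a).elim
        rw [← this]; exact hs
      rw [h3, card_empty]
      exact Nat.zero_le _
    · calc (univ.filter (· ∈ S)).card ≤ Fintype.card (Equiv.Perm α) := by
            rw [← card_univ]; exact card_le_card (subset_univ _)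
        _ = (Fintype.card α).factorial := Fintype.card_perm
        _ ≤ Fintype.card α ^ Fintype.card α := Nat.factorial_le_pow _
        _ ≤ Fintype.card α ^ (r + 2) := Nat.pow_le_pow_right h0 (by omega)
        _ ≤ (r - 1) * Fintype.card α ^ (r + 2) := Nat.le_mul_of_pos_left _ (by omega)

end sym

end Pool.Agent.T9h45.SF
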