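import Pool.Agent.T9h45.SF.Gap

set_option autoImplicit false
set_option linter.unusedSectionVars false

/-! # The core of a graph -/

namespace Pool.Agent.T9h45.SF

open Finset

variable {V : Type} [Fintype V] [DecidableEq V]

open Classical in
/-- the union of all sets in which all vertices have at least `δ` neighbours -/
noncomputable def core' (G : SimpleGraph V) (δ : ℝ) : Finset V :=
  univ.filter fun x => ∃ W : Finset V, x ∈ W ∧ ∀ y ∈ W, δ ≤ ((W.filter fun z => G.Adj y z).card : ℝ)

open Classical in
theorem core_deg (G : SimpleGraph V) (δ : ℝ) {x : V} (hx : x ∈ core' G δ) :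
    δ ≤ (((core' G δ).filter fun z => G.Adj x z).card : ℝ) := by
  have hx' := hx
  unfold core' at hx'
  rw [mem_filter] at hx'
  obtain ⟨-, W, hxW, hW⟩ := hx'
  refine (hW x hxW).trans ?_
  have : (W.filter fun z => G.Adj x z) ⊆ (core' G δ).filter fun z => G.Adj x z := by
    intro z hz
    rw [mem_filter] at hz ⊢
    refine ⟨?_, hz.2⟩
    unfold core'
    rw [mem_filter]
    exact ⟨mem_univ _, W, hz.1, fun y hy => hW y hy⟩
  exact_mod_cast card_le_card this

theorem core_inv (G : SimpleGraph V) (δ : ℝ) (σ : Equiv.Perm V)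
    (hσ : ∀ x y, G.Adj x y → G.Adj (σ x) (σ y)) {x : V} (hx : x ∈ core' G δ) :
    σ x ∈ core' G δ := by
  classical
  unfold core' at hx ⊢
  rw [mem_filter] at hx ⊢
  obtain ⟨-, W, hxW, hW⟩ := hx
  refine ⟨mem_univ _, W.image σ, mem_image_of_mem _ hxW, ?_⟩
  intro y hy
  obtain ⟨y', hy', rfl⟩ := mem_image.mp hy
  refine (hW y' hy').trans ?_
  have : (W.filter fun z => G.Adj y' z).image σ ⊆ (W.image σ).filter fun z => G.Adj (σ y') z := by
    intro z hz
    obtain ⟨z', hz', rfl⟩ := mem_image.mp hz
    rw [mem_filter] at hz' ⊢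
    exact ⟨mem_image_of_mem _ hz'.1, hσ _ _ hz'.2⟩
  have h2 := card_le_card this
  rw [card_image_of_injective _ σ.injective] at h2
  exact_mod_cast h2

open Classical in
theorem core_edges (G : SimpleGraph V) {δ : ℝ} (hδ : 0 ≤ δ) (W : Finset V)
    (hW : core' G δ ⊆ W) :
    (ed G W W : ℝ) ≤ ed G (core' G δ) (core' G δ) + 2 * δ * W.card := by
  induction' h : W.card using Nat.strong_induction_on with k ih generalizing W
  by_cases hWU : W = core' G δ
  · rw [hWU]
    have : 0 ≤ 2 * δ * (k : ℝ) := by positivity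
    linarith
  · -- some vertex has few neighbours
    obtain ⟨x, hxW, hx⟩ : ∃ x ∈ W, ((W.filter fun z => G.Adj x z).card : ℝ) < δ := by
      by_contra hcon
      push Not at hcon
      apply hWU
      refine Subset.antisymm ?_ hW
      intro x hx
      unfold core'
      rw [mem_filter]
      exact ⟨mem_univ _, W, hx, fun y hy => hcon y hy⟩
    have hxU : x ∉ core' G δ := by
      intro hxU
      have h1 := core_deg G δ hxU
      have h2 : ((core' G δ).filter fun z => G.Adj x z).card ≤
          (W.filter fun z => G.Adj x z).card := card_le_card (filter_subset_filter _ hW)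
      have h3 : (((core' G δ).filter fun z => G.Adj x z).card : ℝ) ≤
          ((W.filter fun z => G.Adj x z).card : ℝ) := by exact_mod_cast h2
      linarith
    have hpos : 0 < W.card := card_pos.mpr ⟨x, hxW⟩
    have hc : (W.erase x).card = k - 1 := by rw [card_erase_of_mem hxW, h]
    have h1 := ih (k - 1) (by omega) (W.erase x)
      (fun z hz => mem_erase.mpr ⟨fun e => hxU (e ▸ hz), hW hz⟩) hc
    have h2 : ed G W W ≤ ed G (W.erase x) (W.erase x) + 2 * (W.filter fun z => G.Adj x z).card := by
      rw [ed, ed]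
      have hsub : ((W ×ˢ W).filter fun p => G.Adj p.1 p.2) ⊆
          ((W.erase x ×ˢ W.erase x).filter fun p => G.Adj p.1 p.2) ∪
          (((W.filter fun z => G.Adj x z).image fun z => (x, z)) ∪
            ((W.filter fun z => G.Adj x z).image fun z => (z, x))) := by
        rintro ⟨u, v⟩ huv
        rw [mem_filter, mem_product] at huv
        simp only at huv
        rw [mem_union, mem_union, mem_filter, mem_product, mem_image, mem_image, mem_erase,
          mem_erase]
        by_cases hu : u = x
        · subst hu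
          right; left
          exact ⟨v, mem_filter.mpr ⟨huv.1.2, huv.2⟩, rfl⟩
        · by_cases hv : v = x
          · subst hv
            right; right
            exact ⟨u, mem_filter.mpr ⟨huv.1.1, huv.2.symm⟩, rfl⟩
          · left
            exact ⟨⟨⟨hu, huv.1.1⟩, hv, huv.1.2⟩, huv.2⟩
      refine (card_le_card hsub).trans ((card_union_le _ _).trans ?_)
      apply Nat.add_le_add_left
      refine (card_union_le _ _).trans ?_
      have h3 := card_image_le (s := W.filter fun z => G.Adj x z) (f := fun z => (x, z))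
      have h4 := card_image_le (s := W.filter fun z => G.Adj x z) (f := fun z => (z, x))
      omega
    have h3 : (ed G W W : ℝ) ≤ ed G (W.erase x) (W.erase x) +
        2 * ((W.filter fun z => G.Adj x z).card : ℝ) := by exact_mod_cast h2
    have h4 : ((k - 1 : ℕ) : ℝ) = (k : ℝ) - 1 := by
      rw [Nat.cast_sub (by omega), Nat.cast_one]
    rw [h4] at h1
    have h5 : 2 * δ * ((k : ℝ) - 1) = 2 * δ * k - 2 * δ := by ring
    linarith

/-- ordered pairs of adjacent vertices: twice the number of edges -/
noncomputable def prs {W : Type} (G : SimpleGraph W) : ℕ := Nat.card {p : W × W // G.Adj p.1 p.2}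

theorem prs_eq (G : SimpleGraph V) : prs G = ed G univ univ := by
  classical
  rw [prs, Nat.card_eq_fintype_card, Fintype.card_subtype, ed, univ_product_univ]

theorem prs_induce (G : SimpleGraph V) (U : Finset V) :
    prs (G.induce (U : Set V)) = ed G U U := by
  classical
  rw [prs, ed, ← Fintype.card_coe, ← Nat.card_eq_fintype_card]
  apply Nat.card_congr
  refine
    { toFun := fun p => ⟨(p.1.1.1, p.1.2.1), mem_filter.mpr ⟨mem_product.mpr
        ⟨p.1.1.2, p.1.2.2⟩, p.2⟩⟩
      invFun := fun p => ⟨(⟨p.1.1, (mem_product.mp (mem_filter.mp p.2).1).1⟩,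
        ⟨p.1.2, (mem_product.mp (mem_filter.mp p.2).1).2⟩), (mem_filter.mp p.2).2⟩
      left_inv := fun _ => rfl
      right_inv := fun _ => rfl }

theorem deg_induce (G : SimpleGraph V) [DecidableRel G.Adj] (U : Finset V)
    (x : (U : Set V)) :
    ((G.induce (U : Set V)).neighborSet x).ncard = (U.filter fun z => G.Adj x z).card := by
  classical
  rw [← Set.ncard_coe_finset, ← Set.ncard_image_of_injective _ Subtype.val_injective]
  congr 1
  ext z
  rw [Set.mem_image, mem_coe, mem_filter]
  constructor
  · rintro ⟨w, hw, rfl⟩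
    exact ⟨w.2, hw⟩
  · rintro ⟨h1, h2⟩
    exact ⟨⟨z, h1⟩, h2, rfl⟩

/-- **Every dense graph has an invariant part with large degrees.** -/
theorem core_main (G : SimpleGraph V) {r : ℕ} (hr : 2 ≤ r) {c : ℝ} (hc : 0 < c)
    (he : 4 * c * (Fintype.card V : ℝ) ^ (2 - 1 / (r : ℝ)) ≤ prs G) :
    ∃ U : Finset V,
      (∀ σ : Equiv.Perm V, (∀ x y, G.Adj x y → G.Adj (σ x) (σ y)) → ∀ x ∈ U, σ x ∈ U) ∧
      (∀ x : (U : Set V), c * (U.card : ℝ) ^ (1 - 1 / (r : ℝ)) ≤
        ((G.induce (U : Set V)).neighborSet x).ncard) ∧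
      2 * c * (Fintype.card V : ℝ) ^ (2 - 1 / (r : ℝ)) ≤ prs (G.induce (U : Set V)) := by
  classical
  have hr2 : (2 : ℝ) ≤ r := by exact_mod_cast hr
  set n := Fintype.card V with hn
  set δ : ℝ := c * (n : ℝ) ^ (1 - 1 / (r : ℝ)) with hδ
  have hδ0 : 0 ≤ δ := by positivity
  refine ⟨core' G δ, fun σ hσ x hx => core_inv G δ σ hσ hx, ?_, ?_⟩
  · intro x
    have h1 := core_deg G δ x.2
    rw [deg_induce]
    refine le_trans ?_ h1
    rw [hδ]
    apply mul_le_mul_of_nonneg_left _ hc.le
    apply Real.rpow_le_rpow (Nat.cast_nonneg _)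
    · have : (core' G δ).card ≤ n := by
        rw [hn, ← card_univ]; exact card_le_card (subset_univ _)
      exact_mod_cast this
    · have : 1 / (r : ℝ) ≤ 1 := by rw [div_le_one (by linarith)]; linarith
      linarith
  · rw [prs_induce]
    rw [prs_eq] at he
    have h1 := core_edges G hδ0 univ (subset_univ _)
    rw [card_univ, ← hn] at h1
    have h2 : δ * n = c * (n : ℝ) ^ (2 - 1 / (r : ℝ)) := by
      rw [hδ, mul_assoc]
      congr 1
      rcases Nat.eq_zero_or_pos n with h0 | h0
      · rw [h0, Nat.cast_zero, mul_zero, Real.zero_rpow]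
        have : 1 / (r : ℝ) ≤ 1 := by rw [div_le_one (by linarith)]; linarith
        linarith
      · have h0' : (0 : ℝ) < n := by exact_mod_cast h0
        nth_rewrite 2 [← Real.rpow_one (n : ℝ)]
        rw [← Real.rpow_add h0']
        congr 1
        ring
    have h3 : 2 * δ * (n : ℝ) = 2 * (c * (n : ℝ) ^ (2 - 1 / (r : ℝ))) := by rw [← h2]; ring
    linarith

end Pool.Agent.T9h45.SF
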