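import Pool.Agent.T9h45.SF.Vec
import Pool.Agent.H422R3.Sym.Ex

set_option autoImplicit false
set_option linter.unusedSectionVars false

/-! # Examples: symmetries with many fixed points -/

namespace Pool.Agent.T9h45.SF

open Pool.Agent.H422R3.Sym

section r2

variable (F : Type) [Field F]

/-- pairs of elements of `F` -/
def W2 : Type := F × F

instance : MulAction ℤˣ (W2 F) where
  smul u p := (((u : ℤ) : F) * p.1, p.2)
  one_smul p := by
    change ((((1 : ℤˣ) : ℤ) : F) * p.1, p.2) = p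
    rw [Units.val_one, Int.cast_one, one_mul]; rfl
  mul_smul a b p := by
    change ((((a * b : ℤˣ) : ℤ) : F) * p.1, p.2) = (((a : ℤ) : F) * (((b : ℤ) : F) * p.1), p.2)
    rw [Units.val_mul, Int.cast_mul, mul_assoc]

theorem smulW (u : ℤˣ) (p : W2 F) : u • p = ((((u : ℤ) : F) * p.1, p.2) : F × F) := rfl

/-- `(x,y) ~ (x',y')` if `y + y' = x x'` -/
def GW : SimpleGraph (W2 F) where
  Adj p q := p ≠ q ∧ p.2 + q.2 = p.1 * q.1
  symm := ⟨by
    intro p q h
    exact ⟨h.1.symm, by rw [add_comm, h.2, mul_comm]⟩⟩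
  loopless := ⟨fun p h => h.1 rfl⟩

theorem GW_adj (p q : W2 F) : (GW F).Adj p q ↔ p ≠ q ∧ p.2 + q.2 = p.1 * q.1 := Iff.rfl

theorem GW_act (a : ℤˣ) (p q : W2 F) (h : (GW F).Adj p q) : (GW F).Adj (a • p) (a • q) := by
  refine ⟨fun h2 => h.1 (MulAction.injective a h2), ?_⟩
  rw [smulW, smulW]
  simp only
  rw [h.2]
  have : ((a : ℤ) : F) * ((a : ℤ) : F) = 1 := by
    rw [← Int.cast_mul, ← Units.val_mul, Int.units_mul_self, Units.val_one, Int.cast_one]
  linear_combination (-(p.1 * q.1)) * this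

theorem GW_free : (completeBipartiteGraph (Fin 2) (Fin 2)).Free (GW F) := by
  apply free_of
  intro a b ha hb hadj
  have h00 := (hadj 0 0).2
  have h01 := (hadj 0 1).2
  have h10 := (hadj 1 0).2
  have h11 := (hadj 1 1).2
  have hne : a 0 ≠ a 1 := fun h => by simpa using ha h
  have hneb : b 0 ≠ b 1 := fun h => by simpa using hb h
  have key : ((a 0).1 - (a 1).1) * ((b 0).1 - (b 1).1) = 0 := by
    linear_combination -h00 + h01 + h10 - h11
  rcases mul_eq_zero.mp key with h | h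
  · apply hne
    have h1 : (a 0).1 = (a 1).1 := sub_eq_zero.mp h
    have h2 : (a 0).2 = (a 1).2 := by
      linear_combination (h00 - h10 + h * ((b 0).1 : F))
    exact Prod.ext h1 h2
  · apply hneb
    have h1 : (b 0).1 = (b 1).1 := sub_eq_zero.mp h
    have h2 : (b 0).2 = (b 1).2 := by
      linear_combination (h00 - h01 + h * ((a 0).1 : F))
    exact Prod.ext h1 h2

theorem GW_deg [Finite F] (p : W2 F) : Nat.card F - 1 ≤ ((GW F).neighborSet p).ncard := by
  have h1 : (Set.range fun x : F => ((x, p.1 * x - p.2) : F × F)) \ {(p : F × F)} ⊆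
      (GW F).neighborSet p := by
    rintro q ⟨⟨x, rfl⟩, hq⟩
    refine (GW_adj F _ _).mpr ⟨fun h => hq h.symm, ?_⟩
    change p.2 + (p.1 * x - p.2) = p.1 * x
    ring
  have h2 : (Set.range fun x : F => ((x, p.1 * x - p.2) : F × F)).ncard = Nat.card F := by
    rw [← Set.image_univ, Set.ncard_image_of_injective _ (fun x y h => (Prod.mk.inj h).1),
      Set.ncard_univ]
  have : Finite (W2 F) := inferInstanceAs (Finite (F × F))
  have h3 := Set.ncard_le_ncard h1 (Set.toFinite _)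
  have h4 := Set.pred_ncard_le_ncard_sdiff_singleton
    (Set.range fun x : F => ((x, p.1 * x - p.2) : F × F)) (p : F × F)
  rw [h2] at h4
  exact h4.trans h3

theorem GW_fix (h2 : (2 : F) ≠ 0) (p : W2 F) : p ∈ MulAction.fixedPoints ℤˣ (W2 F) ↔ p.1 = 0 := by
  rw [MulAction.mem_fixedPoints]
  constructor
  · intro h
    have h3 := congrArg Prod.fst (h (-1))
    change (((-1 : ℤˣ) : ℤ) : F) * p.1 = p.1 at h3
    rw [Units.val_neg, Units.val_one, Int.cast_neg, Int.cast_one, neg_one_mul] at h3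
    have h4 : (2 : F) * p.1 = 0 := by linear_combination -h3
    exact (mul_eq_zero.mp h4).resolve_left h2
  · intro h a
    rw [smulW, h, mul_zero]
    exact Prod.ext h.symm rfl

theorem GW_card_fix (h2 : (2 : F) ≠ 0) :
    Nat.card (MulAction.fixedPoints ℤˣ (W2 F)) = Nat.card F := by
  apply Nat.card_congr
  refine
    { toFun := fun p => p.1.2
      invFun := fun y => ⟨((0, y) : F × F), (GW_fix F h2 _).mpr rfl⟩
      left_inv := ?_
      right_inv := fun _ => rfl }
  rintro ⟨p, hp⟩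
  apply Subtype.ext
  exact Prod.ext ((GW_fix F h2 _).mp hp).symm rfl

end r2

/-- orbits with one element -/
theorem orbit_one {H V : Type} [Group H] [MulAction H V] {x : V}
    (hx : x ∈ MulAction.fixedPoints H V) : Nat.card (MulAction.orbit H x) = 1 := by
  have : MulAction.orbit H x = {x} := by
    ext y
    rw [Set.mem_singleton_iff]
    constructor
    · rintro ⟨a, rfl⟩
      exact hx a
    · rintro rfl
      exact MulAction.mem_orbit_self y
  rw [this, Nat.card_coe_set_eq, Set.ncard_singleton]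

theorem orbit_two {H V : Type} [Group H] [MulAction H V] [Finite V] {x : V}
    (hx : x ∉ MulAction.fixedPoints H V) : 2 ≤ Nat.card (MulAction.orbit H x) := by
  rw [MulAction.mem_fixedPoints] at hx
  push Not at hx
  obtain ⟨a, ha⟩ := hx
  have h1 : ({x, a • x} : Set V) ⊆ MulAction.orbit H x := by
    rintro y (rfl | rfl)
    · exact MulAction.mem_orbit_self y
    · exact ⟨a, rfl⟩
  rw [Nat.card_coe_set_eq, ← Set.ncard_pair ha.symm]
  exact Set.ncard_le_ncard h1 (Set.toFinite _)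

section r3

variable (F : Type) [Field F] (n : ℕ)

instance actV3 : MulAction (powMonoidHom (n + 2) : Fˣ →* Fˣ).ker (V3 F n) where
  smul u p := (((u.1 : Fˣ) : F) * p.1, p.2)
  one_smul p := by
    change ((1 : F) * p.1, p.2) = p
    rw [one_mul]; rfl
  mul_smul a b p := by
    change (((a.1 * b.1 : Fˣ) : F) * p.1, p.2) = (((a.1 : Fˣ) : F) * (((b.1 : Fˣ) : F) * p.1), p.2)
    rw [Units.val_mul, mul_assoc]

theorem smulV (u : (powMonoidHom (n + 2) : Fˣ →* Fˣ).ker) (p : V3 F n) :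
    u • p = ((((u.1 : Fˣ) : F) * p.1, p.2) : F × (powMonoidHom n : Fˣ →* Fˣ).ker) := rfl

theorem G3_mul [CharP F 2] (u : (powMonoidHom (n + 2) : Fˣ →* Fˣ).ker) (p q : V3 F n)
    (h : (G3 F n).Adj p q) : (G3 F n).Adj (u • p) (u • q) := by
  rw [G3_adj] at *
  rw [smulV, smulV]
  simp only
  rw [← h, ← mul_add, mul_pow]
  have h1 := MonoidHom.mem_ker.mp u.2
  rw [powMonoidHom_apply] at h1
  have h2 : ((u.1 : Fˣ) : F) ^ (n + 2) = 1 := by
    rw [← Units.val_pow_eq_pow_val, h1, Units.val_one]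
  rw [h2, one_mul]

/-- the orbit of a vertex with nonzero first coordinate -/
theorem orb3 (p : V3 F n) (hp : p.1 ≠ 0) :
    Nat.card (MulAction.orbit (powMonoidHom (n + 2) : Fˣ →* Fˣ).ker p) =
      Nat.card (powMonoidHom (n + 2) : Fˣ →* Fˣ).ker := by
  symm
  apply Nat.card_congr
  refine Equiv.ofBijective (fun a => ⟨a • p, ⟨a, rfl⟩⟩) ⟨?_, ?_⟩
  · intro a b hab
    have h := congrArg (fun z => (z.1 : F × (powMonoidHom n : Fˣ →* Fˣ).ker).1) hab
    change ((a.1 : Fˣ) : F) * p.1 = ((b.1 : Fˣ) : F) * p.1 at h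
    exact Subtype.ext (Units.ext (mul_right_cancel₀ hp h))
  · rintro ⟨_, ⟨a, rfl⟩⟩
    exact ⟨a, rfl⟩

theorem fix3 (hH : 1 < Nat.card (powMonoidHom (n + 2) : Fˣ →* Fˣ).ker) (p : V3 F n) :
    p ∈ MulAction.fixedPoints (powMonoidHom (n + 2) : Fˣ →* Fˣ).ker (V3 F n) ↔ p.1 = 0 := by
  constructor
  · intro h
    by_contra hp
    have h1 := orb3 F n p hp
    rw [orbit_one h] at h1
    omega
  · intro h
    rw [MulAction.mem_fixedPoints]
    intro a
    rw [smulV, h, mul_zero]
    exact Prod.ext h.symm rfl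

theorem card_fix3 (hH : 1 < Nat.card (powMonoidHom (n + 2) : Fˣ →* Fˣ).ker) :
    Nat.card (MulAction.fixedPoints (powMonoidHom (n + 2) : Fˣ →* Fˣ).ker (V3 F n)) =
      Nat.card (powMonoidHom n : Fˣ →* Fˣ).ker := by
  apply Nat.card_congr
  refine
    { toFun := fun p => p.1.2
      invFun := fun y => ⟨((0, y) : F × (powMonoidHom n : Fˣ →* Fˣ).ker), (fix3 F n hH _).mpr rfl⟩
      left_inv := ?_
      right_inv := fun _ => rfl }
  rintro ⟨p, hp⟩
  apply Subtype.ext
  exact Prod.ext ((fix3 F n hH _).mp hp).symm rfl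

end r3

/-- There is a graph without `K_{r,r}` with at most `q ^ r` vertices and all degrees at least
`q ^ (r - 1) - 1`, and a group of automorphisms with at least `q - 1` fixed vertices all of whose
other orbits have at least `r` elements. -/
def Sharp (r q : ℕ) : Prop :=
  ∃ (V H : Type) (_ : Finite V) (_ : Group H) (_ : MulAction H V) (G : SimpleGraph V),
    (∀ (a : H) (x y : V), G.Adj x y → G.Adj (a • x) (a • y)) ∧
    (completeBipartiteGraph (Fin r) (Fin r)).Free G ∧
    (∀ x : V, Nat.card (MulAction.orbit H x) = 1 ∨ r ≤ Nat.card (MulAction.orbit H x)) ∧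
    (∃ x : V, r ≤ Nat.card (MulAction.orbit H x)) ∧
    Nat.card V ≤ q ^ r ∧ (∀ x, q ^ (r - 1) - 1 ≤ (G.neighborSet x).ncard) ∧
    q - 1 ≤ Nat.card (MulAction.fixedPoints H V)

theorem sharp2 (F : Type) [Field F] [Finite F] (h2 : (2 : F) ≠ 0) : Sharp 2 (Nat.card F) := by
  have : Finite (W2 F) := inferInstanceAs (Finite (F × F))
  refine ⟨W2 F, ℤˣ, inferInstance, inferInstance, inferInstance, GW F, GW_act F, GW_free F, ?_,
    ?_, ?_, ?_, ?_⟩
  · intro x
    by_cases hx : x ∈ MulAction.fixedPoints ℤˣ (W2 F)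
    · exact Or.inl (orbit_one hx)
    · exact Or.inr (orbit_two hx)
  · refine ⟨((1, 0) : F × F), orbit_two fun h => ?_⟩
    exact one_ne_zero ((GW_fix F h2 _).mp h)
  · change Nat.card (F × F) ≤ _
    rw [Nat.card_prod, sq]
  · intro x
    rw [Nat.add_one_sub_one, pow_one]
    exact GW_deg F x
  · rw [GW_card_fix F h2]
    omega

theorem sharp3 (m : ℕ) (hm : 1 ≤ m) : Sharp 3 (2 ^ m) := by
  have hc : Nat.card (GaloisField 2 (2 * m)) = 2 ^ (2 * m) := GaloisField.card 2 (2 * m) (by omega)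
  classical
  have : Fintype (GaloisField 2 (2 * m)) := Fintype.ofFinite _
  obtain ⟨n, hn⟩ : ∃ n, 2 ^ m = n + 1 := ⟨2 ^ m - 1, by
    have : 0 < 2 ^ m := by positivity
    omega⟩
  have hn1 : 1 ≤ n := by
    have : 2 ^ 1 ≤ 2 ^ m := Nat.pow_le_pow_right (by omega) hm
    omega
  have hq : 2 ^ (2 * m) - 1 = n * (n + 2) := by
    have : 2 ^ (2 * m) = (n + 1) * (n + 1) := by
      rw [two_mul, pow_add, hn]
    rw [this]
    have : (n + 1) * (n + 1) = n * (n + 2) + 1 := by ring
    omega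
  have hF : ∀ t : (GaloisField 2 (2 * m))ˣ, t ^ (n * (n + 2)) = 1 := by
    intro t
    have h1 : Nat.card (GaloisField 2 (2 * m))ˣ = n * (n + 2) := by
      rw [Nat.card_units, hc, hq]
    rw [← h1]
    exact pow_card_eq_one'
  have hker : Nat.card (powMonoidHom n : (GaloisField 2 (2 * m))ˣ →* _).ker = n := by
    rw [IsCyclic.card_powMonoidHom_ker, Nat.card_units, hc, hq]
    exact Nat.gcd_eq_right (Dvd.intro _ rfl)
  have hker2 : Nat.card (powMonoidHom (n + 2) : (GaloisField 2 (2 * m))ˣ →* _).ker = n + 2 := by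
    rw [IsCyclic.card_powMonoidHom_ker, Nat.card_units, hc, hq]
    exact Nat.gcd_eq_right (Dvd.intro_left _ rfl)
  have hVc : Nat.card (V3 (GaloisField 2 (2 * m)) n) = (n + 1) * (n + 1) * n := by
    have h1 : Nat.card (V3 (GaloisField 2 (2 * m)) n) = Nat.card (GaloisField 2 (2 * m)) *
        Nat.card ((powMonoidHom n : (GaloisField 2 (2 * m))ˣ →* (GaloisField 2 (2 * m))ˣ).ker) :=
      Nat.card_prod _ _
    rw [h1, hker, hc, two_mul, pow_add, hn]
  refine ⟨V3 (GaloisField 2 (2 * m)) n,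
    (powMonoidHom (n + 2) : (GaloisField 2 (2 * m))ˣ →* (GaloisField 2 (2 * m))ˣ).ker,
    inferInstance, inferInstance, inferInstance, G3 _ n, G3_mul _ n,
    G3_free _ n (iterateFrobenius _ 2 m) ?_, ?_, ?_, ?_, ?_, ?_⟩
  · intro x
    rw [iterateFrobenius_def, hn]
  · intro x
    by_cases hx : x.1 = 0
    · left
      exact orbit_one ((fix3 _ n (by omega) x).mpr hx)
    · right
      rw [orb3 _ n x hx, hker2]
      omega
  · obtain ⟨p, hp⟩ : ∃ p : V3 (GaloisField 2 (2 * m)) n, p.1 ≠ 0 :=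
      ⟨((1, 1) : GaloisField 2 (2 * m) × (powMonoidHom n : (GaloisField 2 (2 * m))ˣ →* _).ker),
        one_ne_zero⟩
    refine ⟨p, ?_⟩
    rw [orb3 _ n p hp, hker2]
    omega
  · rw [hVc, hn]
    have : (n + 1) ^ 3 = (n + 1) * (n + 1) * n + (n + 1) * (n + 1) := by ring
    omega
  · intro x
    rw [← Nat.card_coe_set_eq, G3_nbr _ n hF x, Nat.card_units, hc]
    have : (2 ^ m) ^ (3 - 1) = 2 ^ (2 * m) := by rw [← pow_mul, mul_comm]
    rw [this]
  · rw [card_fix3 _ n (by omega), hker, hn]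
    omega

end Pool.Agent.T9h45.SF
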