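import Pool.Agent.T9h45.SF.Kst

set_option autoImplicit false
set_option linter.unusedSectionVars false

/-! # Short orbits of groups of automorphisms of graphs without `K_{r,r}` -/

namespace Pool.Agent.T9h45.SF

open Finset

variable {V : Type} [Fintype V] [DecidableEq V] (H : Type) [Group H] [MulAction H V]

open Classical in
/-- the orbit of `x` -/
noncomputable def O (x : V) : Finset V := univ.filter (· ∈ MulAction.orbit H x)

open Classical in
/-- the vertices in orbits with at most `t` elements -/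
noncomputable def B (V : Type) [Fintype V] [DecidableEq V] (H : Type) [Group H] [MulAction H V]
    (t : ℕ) : Finset V := univ.filter fun x => (O H x).card ≤ t

theorem mem_O {x y : V} : y ∈ O H x ↔ y ∈ MulAction.orbit H x := by
  classical
  unfold O
  rw [mem_filter]; exact and_iff_right (mem_univ _)

theorem mem_B {x : V} {t : ℕ} : x ∈ B V H t ↔ (O H x).card ≤ t := by
  rw [B, mem_filter]; exact and_iff_right (mem_univ _)

theorem card_O (x : V) : (O H x).card = Nat.card (MulAction.orbit H x) := by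
  classical
  rw [Nat.card_eq_fintype_card, ← Set.toFinset_card]
  congr 1
  ext y
  rw [mem_O, Set.mem_toFinset]

variable {H}

open Classical in
/-- A vertex with `r` neighbours in short orbits is in a short orbit. -/
theorem key (G : SimpleGraph V) (hact : ∀ (a : H) (x y : V), G.Adj x y → G.Adj (a • x) (a • y))
    {r : ℕ} (hG : (completeBipartiteGraph (Fin r) (Fin r)).Free G) (hr : 1 ≤ r) {t : ℕ} {y : V}
    {X : Finset V} (hX : r ≤ X.card) (h1 : ∀ x ∈ X, (O H x).card ≤ t)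
    (h2 : ∀ x ∈ X, G.Adj x y) : (O H y).card ≤ (r - 1) * t ^ r := by
  by_contra hcon
  push Not at hcon
  obtain ⟨X', hX', hXc⟩ := Finset.exists_subset_card_eq hX
  have hg : ∀ z : V, ∃ a : H, z ∈ O H y → a • y = z := by
    intro z
    by_cases hz : z ∈ O H y
    · obtain ⟨a, ha⟩ := (mem_O H).mp hz
      exact ⟨a, fun _ => ha⟩
    · exact ⟨1, fun h => absurd h hz⟩
  choose g hg using hg
  set P : Finset ((x : X') → V) := Fintype.piFinset fun x => O H (x : V) with hP
  have hPc : P.card ≤ t ^ r := by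
    rw [hP, Fintype.card_piFinset]
    calc ∏ x : X', (O H (x : V)).card ≤ ∏ _x : X', t :=
          prod_le_prod' fun x _ => h1 _ (hX' x.2)
      _ = t ^ r := by rw [prod_const, card_univ, Fintype.card_coe, hXc]
  have hmap : ∀ z ∈ O H y, (fun x : X' => g z • (x : V)) ∈ P := by
    intro z _
    rw [hP, Fintype.mem_piFinset]
    intro x
    rw [mem_O]
    exact ⟨g z, rfl⟩
  have hlt : P.card * (r - 1) < (O H y).card := by
    calc P.card * (r - 1) ≤ t ^ r * (r - 1) := Nat.mul_le_mul_right _ hPc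
      _ = (r - 1) * t ^ r := mul_comm _ _
      _ < _ := hcon
  obtain ⟨w, -, hw⟩ := exists_lt_card_fiber_of_mul_lt_card_of_maps_to hmap hlt
  set Z := (O H y).filter fun z => (fun x : X' => g z • (x : V)) = w with hZ
  obtain ⟨z0, hz0⟩ : Z.Nonempty := card_pos.mp (by omega)
  refine not_free G (X'.image fun x => g z0 • x) Z ?_ (by omega) ?_ hG
  · rw [card_image_of_injective _ (MulAction.injective (g z0)), hXc]
  · intro x hx z hz
    obtain ⟨x', hx', rfl⟩ := mem_image.mp hx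
    have e1 := congrFun (mem_filter.mp hz).2 ⟨x', hx'⟩
    have e2 := congrFun (mem_filter.mp hz0).2 ⟨x', hx'⟩
    have e3 : g z0 • x' = g z • x' := e2.trans e1.symm
    have h3 := hact (g z) x' y (h2 x' (hX' hx'))
    rw [hg z (mem_filter.mp hz).1] at h3
    show G.Adj (g z0 • x') z
    rw [e3]
    exact h3

open Classical in
theorem nb_lt (G : SimpleGraph V) (hact : ∀ (a : H) (x y : V), G.Adj x y → G.Adj (a • x) (a • y))
    {r : ℕ} (hG : (completeBipartiteGraph (Fin r) (Fin r)).Free G) (hr : 1 ≤ r) {t : ℕ} {y : V}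
    (hy : y ∉ B V H ((r - 1) * t ^ r)) :
    ((B V H t).filter fun x => G.Adj x y).card ≤ r - 1 := by
  by_contra hcon
  push Not at hcon
  apply hy
  rw [mem_B]
  exact key G hact hG hr (X := (B V H t).filter fun x => G.Adj x y) (by omega)
    (fun x hx => (mem_B H).mp (mem_filter.mp hx).1) (fun x hx => (mem_filter.mp hx).2)

/-- The general inequality. -/
theorem ineq (G : SimpleGraph V) (hact : ∀ (a : H) (x y : V), G.Adj x y → G.Adj (a • x) (a • y))
    {r : ℕ} (hG : (completeBipartiteGraph (Fin r) (Fin r)).Free G) (hr : 1 ≤ r) (t : ℕ) :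
    (ed G (B V H t) univ - (r - 1) * Fintype.card V) ^ r ≤
      (r - 1) * (B V H t).card ^ r * (B V H ((r - 1) * t ^ r)).card ^ (r - 1) := by
  classical
  obtain ⟨T, hT⟩ : ∃ T, T = (r - 1) * t ^ r := ⟨_, rfl⟩
  rw [← hT]
  refine le_trans (Nat.pow_le_pow_left ?_ r) (kst G hG hr (B V H t) (B V H T))
  have h1 : ed G (B V H t) univ ≤ ed G (B V H t) (B V H T) +
      (r - 1) * (univ \ B V H T).card := by
    rw [ed_eq, ed_eq, ← sum_sdiff (subset_univ (B V H T)), add_comm]
    apply Nat.add_le_add_left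
    rw [mul_comm, ← smul_eq_mul, ← sum_const]
    refine sum_le_sum fun y hy => nb_lt G hact hG hr ?_
    rw [← hT]
    exact (mem_sdiff.mp hy).2
  rw [card_sdiff_of_subset (subset_univ _), card_univ, Nat.mul_sub] at h1
  have h2 : (r - 1) * (B V H T).card ≤ (r - 1) * Fintype.card V :=
    Nat.mul_le_mul_left _ (by rw [← card_univ]; exact card_le_card (subset_univ _))
  omega

/-- the constant in the lower alternative -/
noncomputable def cc (r : ℕ) (c : ℝ) : ℝ := ((c / 2) ^ r / (r - 1)) ^ (1 / ((r : ℝ) - 1))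

theorem cc_pos {r : ℕ} (hr : 2 ≤ r) {c : ℝ} (hc : 0 < c) : 0 < cc r c := by
  have : (2 : ℝ) ≤ r := by exact_mod_cast hr
  rw [cc]
  apply Real.rpow_pos_of_pos
  apply div_pos (by positivity)
  linarith

theorem cc_pow {r : ℕ} (hr : 2 ≤ r) {c : ℝ} (hc : 0 < c) :
    cc r c ^ (r - 1) = (c / 2) ^ r / (r - 1) := by
  have h2 : (2 : ℝ) ≤ r := by exact_mod_cast hr
  have h3 : (0 : ℝ) ≤ (c / 2) ^ r / (r - 1) := div_nonneg (by positivity) (by linarith)
  rw [cc, ← Real.rpow_natCast, ← Real.rpow_mul h3, Nat.cast_sub (by omega), Nat.cast_one,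
    one_div, inv_mul_cancel₀ (by linarith), Real.rpow_one]

/-- from `(δ / 2) ^ r ≤ (r - 1) b ^ (r - 1)` to `b ≥ c' n` -/
theorem lower {r : ℕ} (hr : 2 ≤ r) {c : ℝ} (hc : 0 < c) {n b : ℕ}
    (h : (c * (n : ℝ) ^ (1 - 1 / (r : ℝ)) / 2) ^ r ≤ (r - 1) * (b : ℝ) ^ (r - 1)) :
    cc r c * n ≤ b := by
  have h2 : (2 : ℝ) ≤ r := by exact_mod_cast hr
  have h3 : ((n : ℝ) ^ (1 - 1 / (r : ℝ))) ^ r = (n : ℝ) ^ (r - 1) := by
    rw [← Real.rpow_natCast, ← Real.rpow_mul (Nat.cast_nonneg n), ← Real.rpow_natCast,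
      Nat.cast_sub (by omega), Nat.cast_one]
    congr 1
    have : (r : ℝ) ≠ 0 := by linarith
    field_simp
  have h4 : (cc r c * n) ^ (r - 1) ≤ (b : ℝ) ^ (r - 1) := by
    rw [mul_pow, cc_pow hr hc, div_mul_eq_mul_div, div_le_iff₀ (by linarith)]
    calc (c / 2) ^ r * (n : ℝ) ^ (r - 1)
        = (c * (n : ℝ) ^ (1 - 1 / (r : ℝ)) / 2) ^ r := by
          rw [← h3, ← mul_pow]; congr 1; ring
      _ ≤ (r - 1) * (b : ℝ) ^ (r - 1) := h
      _ = (b : ℝ) ^ (r - 1) * (r - 1) := mul_comm _ _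
  exact le_of_pow_le_pow_left₀ (by omega) (Nat.cast_nonneg b) h4

theorem rp_mul {r : ℕ} (hr : 2 ≤ r) {n : ℕ} (hn : 0 < n) :
    (n : ℝ) ^ (1 / (r : ℝ)) * (n : ℝ) ^ (1 - 1 / (r : ℝ)) = n := by
  have hn' : (0 : ℝ) < n := by exact_mod_cast hn
  rw [← Real.rpow_add hn']
  norm_num

theorem core {r : ℕ} (hr : 2 ≤ r) {c : ℝ} (hc : 0 < c) {n a b E : ℕ} (han : a ≤ n)
    (h1 : c * (n : ℝ) ^ (1 - 1 / (r : ℝ)) * a ≤ E)
    (h2 : (E - (r - 1) * n) ^ r ≤ (r - 1) * a ^ r * b ^ (r - 1)) :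
    (a : ℝ) ≤ 2 * (r - 1) / c * (n : ℝ) ^ (1 / (r : ℝ)) ∨ cc r c * n ≤ b := by
  have hr2 : (2 : ℝ) ≤ r := by exact_mod_cast hr
  rcases Nat.eq_zero_or_pos a with ha | ha
  · left
    rw [ha, Nat.cast_zero]
    have : (0 : ℝ) ≤ r - 1 := by linarith
    positivity
  have hn : 0 < n := by omega
  have hn' : (0 : ℝ) < n := by exact_mod_cast hn
  have ha' : (0 : ℝ) < a := by exact_mod_cast ha
  have hD := rp_mul hr hn
  set D : ℝ := (n : ℝ) ^ (1 - 1 / (r : ℝ)) with hDdef
  have hDpos : 0 < D := Real.rpow_pos_of_pos hn' _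
  have hRpos : 0 < (n : ℝ) ^ (1 / (r : ℝ)) := Real.rpow_pos_of_pos hn' _
  by_cases hcase : c * D * a ≤ 2 * (r - 1) * n
  · left
    rw [div_mul_eq_mul_div, le_div_iff₀ hc]
    rw [← hD] at hcase
    have h3 : (a * c) * D ≤ (2 * (r - 1) * (n : ℝ) ^ (1 / (r : ℝ))) * D := by
      calc (a * c) * D = c * D * a := by ring
        _ ≤ 2 * (r - 1) * ((n : ℝ) ^ (1 / (r : ℝ)) * D) := hcase
        _ = _ := by ring
    exact le_of_mul_le_mul_right h3 hDpos
  · right
    push Not at hcase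
    apply lower hr hc
    rw [← hDdef]
    have h3 : c * D * a / 2 ≤ ((E - (r - 1) * n : ℕ) : ℝ) := by
      have h4 : (E : ℝ) ≤ ((E - (r - 1) * n : ℕ) : ℝ) + (r - 1) * n := by
        have : E ≤ (E - (r - 1) * n) + (r - 1) * n := by omega
        have h5 : ((r - 1 : ℕ) : ℝ) = (r : ℝ) - 1 := by
          rw [Nat.cast_sub (by omega), Nat.cast_one]
        rw [← h5]
        exact_mod_cast this
      linarith
    have h4 : (c * D * a / 2) ^ r ≤ (r - 1) * (a : ℝ) ^ r * (b : ℝ) ^ (r - 1) := by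
      calc (c * D * a / 2) ^ r ≤ (((E - (r - 1) * n : ℕ) : ℝ)) ^ r :=
            pow_le_pow_left₀ (by positivity) h3 r
        _ ≤ (((r - 1) * a ^ r * b ^ (r - 1) : ℕ) : ℝ) := by exact_mod_cast h2
        _ = _ := by
          rw [Nat.cast_mul, Nat.cast_mul, Nat.cast_sub (by omega), Nat.cast_one, Nat.cast_pow,
            Nat.cast_pow]
    have h5 : (c * D * a / 2) ^ r = (c * D / 2) ^ r * (a : ℝ) ^ r := by
      rw [← mul_pow]; congr 1; ring
    rw [h5] at h4
    have h6 : (c * D / 2) ^ r * (a : ℝ) ^ r ≤ ((r - 1) * (b : ℝ) ^ (r - 1)) * (a : ℝ) ^ r := by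
      calc _ ≤ _ := h4
        _ = _ := by ring
    exact le_of_mul_le_mul_right h6 (by positivity)

/-- the number of pairs `(x, y)` with `x ∈ X` adjacent to `y` -/
theorem ed_univ_ge (G : SimpleGraph V) (X : Finset V) (δ : ℝ)
    (h : ∀ x ∈ X, δ ≤ (G.neighborSet x).ncard) : δ * X.card ≤ ed G X univ := by
  classical
  rw [ed_eq', Nat.cast_sum, mul_comm, ← nsmul_eq_mul, ← sum_const]
  refine sum_le_sum fun x hx => (h x hx).trans (le_of_eq ?_)
  rw [Set.ncard_eq_toFinset_card']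
  congr 2
  ext y
  rw [Set.mem_toFinset, mem_filter, SimpleGraph.mem_neighborSet]
  simp

/-- **Short orbits.** -/
theorem dich (G : SimpleGraph V) (hact : ∀ (a : H) (x y : V), G.Adj x y → G.Adj (a • x) (a • y))
    {r : ℕ} (hG : (completeBipartiteGraph (Fin r) (Fin r)).Free G) (hr : 2 ≤ r) {c : ℝ}
    (hc : 0 < c)
    (hd : ∀ x, c * (Fintype.card V : ℝ) ^ (1 - 1 / (r : ℝ)) ≤ (G.neighborSet x).ncard) (t : ℕ) :
    ((B V H t).card : ℝ) ≤ 2 * (r - 1) / c * (Fintype.card V : ℝ) ^ (1 / (r : ℝ)) ∨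
      cc r c * Fintype.card V ≤ (B V H ((r - 1) * t ^ r)).card :=
  core hr hc (by rw [← card_univ]; exact card_le_card (subset_univ _))
    (ed_univ_ge G _ _ fun x _ => hd x) (ineq G hact hG (by omega) t)

/-- the vertices which are moved -/
theorem moved (G : SimpleGraph V) (hact : ∀ (a : H) (x y : V), G.Adj x y → G.Adj (a • x) (a • y))
    {r : ℕ} (hG : (completeBipartiteGraph (Fin r) (Fin r)).Free G) (hr : 2 ≤ r) {c : ℝ}
    (hc : 0 < c)
    (hd : ∀ x, c * (Fintype.card V : ℝ) ^ (1 - 1 / (r : ℝ)) ≤ (G.neighborSet x).ncard)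
    (horb : ∀ x : V, (O H x).card ≤ 1 ∨ r ≤ (O H x).card) (hne : (B V H 1).card < Fintype.card V)
    (hbig : 4 * (r - 1) ≤ c * (Fintype.card V : ℝ) ^ (1 - 1 / (r : ℝ))) :
    cc r c * Fintype.card V ≤ ((univ \ B V H 1).card : ℕ) := by
  classical
  have hr2 : (2 : ℝ) ≤ r := by exact_mod_cast hr
  have h5 : ((r - 1 : ℕ) : ℝ) = (r : ℝ) - 1 := by rw [Nat.cast_sub (by omega), Nat.cast_one]
  set M : Finset V := univ \ B V H 1 with hM
  have hMpos : 0 < M.card := by
    rw [hM, card_sdiff_of_subset (subset_univ _), card_univ]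
    omega
  have hMpos' : (0 : ℝ) < M.card := by exact_mod_cast hMpos
  set δ : ℝ := c * (Fintype.card V : ℝ) ^ (1 - 1 / (r : ℝ)) with hδ
  have hb : ∀ y ∈ M, ((B V H 1).filter fun x => G.Adj x y).card ≤ r - 1 := by
    intro y hy
    apply nb_lt G hact hG (by omega)
    rw [one_pow, mul_one, mem_B]
    have h1 : ¬ (O H y).card ≤ 1 := fun h => (mem_sdiff.mp hy).2 ((mem_B H).mpr h)
    rcases horb y with h | h
    · exact absurd h h1
    · omega
  have h1 : (δ - (r - 1)) * M.card ≤ ed G M M := by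
    have h2 : δ * M.card ≤ ed G univ M := by
      rw [ed_eq, Nat.cast_sum, mul_comm, ← nsmul_eq_mul, ← sum_const]
      refine sum_le_sum fun y _ => (hd y).trans (le_of_eq ?_)
      rw [Set.ncard_eq_toFinset_card']
      congr 2
      ext x
      rw [Set.mem_toFinset, mem_filter, SimpleGraph.mem_neighborSet, G.adj_comm]
      simp
    have h3 : ed G univ M ≤ ed G M M + (r - 1) * M.card := by
      rw [ed_eq, ed_eq, mul_comm (r - 1), ← smul_eq_mul, ← sum_const, ← sum_add_distrib]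
      refine sum_le_sum fun y hy => ?_
      have h4 : (univ.filter fun x => G.Adj x y) =
          (M.filter fun x => G.Adj x y) ∪ ((B V H 1).filter fun x => G.Adj x y) := by
        ext x
        simp only [hM, mem_filter, mem_univ, true_and, mem_union, mem_sdiff]
        tauto
      rw [h4]
      exact (card_union_le _ _).trans (Nat.add_le_add_left (hb y hy) _)
    have h4 : (ed G univ M : ℝ) ≤ ed G M M + (r - 1) * M.card := by
      rw [← h5]; exact_mod_cast h3
    linarith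
  have h2 := kst G hG (by omega) M M
  apply lower hr hc
  rw [← hδ]
  have h3 : δ * M.card / 2 ≤ ((ed G M M - (r - 1) * M.card : ℕ) : ℝ) := by
    have h4 : (ed G M M : ℝ) ≤ ((ed G M M - (r - 1) * M.card : ℕ) : ℝ) + (r - 1) * M.card := by
      have : ed G M M ≤ (ed G M M - (r - 1) * M.card) + (r - 1) * M.card := by omega
      rw [← h5]
      exact_mod_cast this
    have h6 : (2 * (r - 1)) * (M.card : ℝ) ≤ (δ / 2) * M.card :=
      mul_le_mul_of_nonneg_right (by linarith) hMpos'.le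
    linarith
  have hδpos : 0 ≤ δ := by positivity
  have h4 : (δ * M.card / 2) ^ r ≤ (r - 1) * (M.card : ℝ) ^ r * (M.card : ℝ) ^ (r - 1) := by
    calc (δ * M.card / 2) ^ r ≤ (((ed G M M - (r - 1) * M.card : ℕ) : ℝ)) ^ r :=
          pow_le_pow_left₀ (by positivity) h3 r
      _ ≤ (((r - 1) * M.card ^ r * M.card ^ (r - 1) : ℕ) : ℝ) := by exact_mod_cast h2
      _ = _ := by
        rw [Nat.cast_mul, Nat.cast_mul, Nat.cast_sub (by omega), Nat.cast_one, Nat.cast_pow,
          Nat.cast_pow]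
  have h6 : (δ / 2) ^ r * (M.card : ℝ) ^ r ≤ ((r - 1) * (M.card : ℝ) ^ (r - 1)) * (M.card : ℝ) ^ r := by
    calc (δ / 2) ^ r * (M.card : ℝ) ^ r = (δ * M.card / 2) ^ r := by
          rw [← mul_pow]; congr 1; ring
      _ ≤ _ := h4
      _ = _ := by ring
  exact le_of_mul_le_mul_right h6 (by positivity)

/-- **The gap.** -/
theorem gap (G : SimpleGraph V) (hact : ∀ (a : H) (x y : V), G.Adj x y → G.Adj (a • x) (a • y))
    {r : ℕ} (hG : (completeBipartiteGraph (Fin r) (Fin r)).Free G) (hr : 2 ≤ r) {c : ℝ}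
    (hc : 0 < c)
    (hd : ∀ x, c * (Fintype.card V : ℝ) ^ (1 - 1 / (r : ℝ)) ≤ (G.neighborSet x).ncard)
    (horb : ∀ x : V, (O H x).card ≤ 1 ∨ r ≤ (O H x).card)
    (hne : (B V H 1).card < Fintype.card V) :
    ((B V H 1).card : ℝ) ≤ 4 * (r - 1) / c * (Fintype.card V : ℝ) ^ (1 / (r : ℝ)) ∨
      (cc r c * Fintype.card V ≤ (B V H 1).card ∧
        cc r c * Fintype.card V ≤ (Fintype.card V : ℝ) - (B V H 1).card) := by
  classical
  have hr2 : (2 : ℝ) ≤ r := by exact_mod_cast hr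
  have hle : (B V H 1).card ≤ Fintype.card V := hne.le
  have hn : 0 < Fintype.card V := by omega
  have hn' : (0 : ℝ) < Fintype.card V := by exact_mod_cast hn
  have hRpos : 0 < (Fintype.card V : ℝ) ^ (1 / (r : ℝ)) := Real.rpow_pos_of_pos hn' _
  by_cases hbig : 4 * ((r : ℝ) - 1) ≤ c * (Fintype.card V : ℝ) ^ (1 - 1 / (r : ℝ))
  · rcases dich G hact hG hr hc hd 1 with h | h
    · left
      refine h.trans ?_
      apply mul_le_mul_of_nonneg_right _ hRpos.le
      apply div_le_div_of_nonneg_right _ hc.le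
      linarith
    · right
      have hB : B V H ((r - 1) * 1 ^ r) = B V H 1 := by
        ext x
        rw [mem_B, mem_B, one_pow, mul_one]
        rcases horb x with h | h <;> omega
      rw [hB] at h
      refine ⟨h, ?_⟩
      have := moved G hact hG hr hc hd horb hne hbig
      rw [card_sdiff_of_subset (subset_univ _), card_univ, Nat.cast_sub hle] at this
      exact this
  · left
    push Not at hbig
    have hD := rp_mul hr hn
    rw [div_mul_eq_mul_div, le_div_iff₀ hc]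
    calc ((B V H 1).card : ℝ) * c ≤ (Fintype.card V : ℝ) * c :=
          mul_le_mul_of_nonneg_right (by exact_mod_cast hle) hc.le
      _ = (c * (Fintype.card V : ℝ) ^ (1 - 1 / (r : ℝ))) * (Fintype.card V : ℝ) ^ (1 / (r : ℝ)) := by
          rw [mul_assoc, mul_comm ((Fintype.card V : ℝ) ^ (1 - 1 / (r : ℝ))), hD]; ring
      _ ≤ 4 * ((r : ℝ) - 1) * (Fintype.card V : ℝ) ^ (1 / (r : ℝ)) :=
          mul_le_mul_of_nonneg_right hbig.le hRpos.le

/-- edges between fixed and moved vertices -/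
theorem cut (G : SimpleGraph V) (hact : ∀ (a : H) (x y : V), G.Adj x y → G.Adj (a • x) (a • y))
    {r : ℕ} (hG : (completeBipartiteGraph (Fin r) (Fin r)).Free G) (hr : 2 ≤ r)
    (horb : ∀ x : V, (O H x).card ≤ 1 ∨ r ≤ (O H x).card) :
    ed G (B V H 1) (univ \ B V H 1) ≤ (r - 1) * (univ \ B V H 1).card := by
  classical
  rw [ed_eq, mul_comm, ← smul_eq_mul, ← sum_const]
  refine sum_le_sum fun y hy => ?_
  apply nb_lt G hact hG (by omega)
  rw [one_pow, mul_one, mem_B]
  have h1 : ¬ (O H y).card ≤ 1 := fun h => (mem_sdiff.mp hy).2 ((mem_B H).mpr h)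
  rcases horb y with h | h
  · exact absurd h h1
  · omega

end Pool.Agent.T9h45.SF
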