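import Mathlib

set_option autoImplicit false

/-! # The bound of Kővári, Sós and Turán for two sets of vertices -/

namespace Pool.Agent.T9h45.SF

open Finset

variable {V : Type*} [DecidableEq V]

theorem not_free (G : SimpleGraph V) {r : ℕ} (X Y : Finset V) (hX : r ≤ X.card)
    (hY : r ≤ Y.card) (h : ∀ x ∈ X, ∀ y ∈ Y, G.Adj x y) :
    ¬ (completeBipartiteGraph (Fin r) (Fin r)).Free G := by
  rw [SimpleGraph.Free, not_not]
  obtain ⟨X', hX', hXc⟩ := Finset.exists_subset_card_eq hX
  obtain ⟨Y', hY', hYc⟩ := Finset.exists_subset_card_eq hY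
  let eX : Fin r ≃ X' := (Fintype.equivFinOfCardEq (by simpa using hXc)).symm
  let eY : Fin r ≃ Y' := (Fintype.equivFinOfCardEq (by simpa using hYc)).symm
  have hh : ∀ (i j : Fin r), G.Adj (eX i : V) (eY j : V) := fun i j =>
    h _ (hX' (eX i).2) _ (hY' (eY j).2)
  let f : Fin r ⊕ Fin r → V := Sum.elim (fun i => (eY i : V)) (fun j => (eX j : V))
  refine ⟨⟨⟨f, ?_⟩, ?_⟩⟩
  · intro a b hab
    rcases a with i | i <;> rcases b with j | j
    · simp at hab
    · exact (hh j i).symm
    · exact hh i j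
    · simp at hab
  · intro a b hab
    rcases a with i | i <;> rcases b with j | j
    · have : (eY i : V) = eY j := hab
      rw [eY.injective (Subtype.ext this)]
    · exact absurd (show (eX j : V) = eY i from hab.symm) (G.ne_of_adj (hh j i))
    · exact absurd (show (eX i : V) = eY j from hab) (G.ne_of_adj (hh i j))
    · have : (eX i : V) = eX j := hab
      rw [eX.injective (Subtype.ext this)]

/-- The number of the pairs of adjacent vertices `x ∈ X`, `y ∈ Y`. -/
noncomputable def ed (G : SimpleGraph V) (X Y : Finset V) : ℕ := by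
  classical
  exact ((X ×ˢ Y).filter fun p => G.Adj p.1 p.2).card

open Classical in
theorem ed_eq (G : SimpleGraph V) (X Y : Finset V) :
    ed G X Y = ∑ y ∈ Y, (X.filter fun x => G.Adj x y).card := by
  rw [ed, card_filter, sum_product_right]
  refine sum_congr rfl fun y _ => ?_
  rw [card_filter]

open Classical in
theorem ed_eq' (G : SimpleGraph V) (X Y : Finset V) :
    ed G X Y = ∑ x ∈ X, (Y.filter fun y => G.Adj x y).card := by
  rw [ed, card_filter, sum_product]
  refine sum_congr rfl fun y _ => ?_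
  rw [card_filter]

open Classical in
/-- Stars with `r` leaves in `X` and the centre in `Y`. -/
theorem stars (G : SimpleGraph V) {r : ℕ}
    (hG : (completeBipartiteGraph (Fin r) (Fin r)).Free G) (X Y : Finset V) :
    ∑ y ∈ Y, ((X.filter fun x => G.Adj x y).card).choose r ≤ (r - 1) * X.card.choose r := by
  have h1 : ∀ y, ((X.filter fun x => G.Adj x y).card).choose r =
      ((X.powersetCard r).filter fun T => ∀ x ∈ T, G.Adj x y).card := by
    intro y
    rw [← card_powersetCard]
    congr 1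
    ext T
    rw [mem_powersetCard, mem_filter, mem_powersetCard]
    constructor
    · rintro ⟨h, h'⟩
      exact ⟨⟨fun x hx => (mem_filter.mp (h hx)).1, h'⟩, fun x hx => (mem_filter.mp (h hx)).2⟩
    · rintro ⟨⟨h, h'⟩, h''⟩
      exact ⟨fun x hx => mem_filter.mpr ⟨h hx, h'' x hx⟩, h'⟩
  simp_rw [h1, card_filter]
  rw [sum_comm]
  calc ∑ T ∈ X.powersetCard r, ∑ y ∈ Y, (if ∀ x ∈ T, G.Adj x y then 1 else 0)
      ≤ ∑ T ∈ X.powersetCard r, (r - 1) := by
        refine sum_le_sum fun T hT => ?_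
        rw [← card_filter]
        by_contra hcon
        push Not at hcon
        refine not_free G T (Y.filter fun y => ∀ x ∈ T, G.Adj x y)
          (by rw [(mem_powersetCard.mp hT).2]) (by omega) ?_ hG
        intro x hx y hy
        exact (mem_filter.mp hy).2 x hx
    _ = (r - 1) * X.card.choose r := by
        rw [sum_const, card_powersetCard, smul_eq_mul, mul_comm]

open Classical in
/-- **Kővári, Sós, Turán.** -/
theorem kst (G : SimpleGraph V) {r : ℕ}
    (hG : (completeBipartiteGraph (Fin r) (Fin r)).Free G) (hr : 1 ≤ r) (X Y : Finset V) :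
    (ed G X Y - (r - 1) * Y.card) ^ r ≤ (r - 1) * X.card ^ r * Y.card ^ (r - 1) := by
  set d : V → ℕ := fun y => (X.filter fun x => G.Adj x y).card with hd
  have h1 : ∑ y ∈ Y, (d y + 1 - r) ^ r ≤ (r - 1) * X.card ^ r := by
    have h2 : ∀ y ∈ Y, (d y + 1 - r) ^ r ≤ r.factorial * (d y).choose r := by
      intro y _
      rw [← Nat.descFactorial_eq_factorial_mul_choose]
      exact Nat.pow_sub_le_descFactorial _ _
    calc ∑ y ∈ Y, (d y + 1 - r) ^ r ≤ ∑ y ∈ Y, r.factorial * (d y).choose r := sum_le_sum h2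
      _ = r.factorial * ∑ y ∈ Y, (d y).choose r := by rw [mul_sum]
      _ ≤ r.factorial * ((r - 1) * X.card.choose r) := Nat.mul_le_mul_left _ (stars G hG X Y)
      _ = (r - 1) * (r.factorial * X.card.choose r) := by ring
      _ = (r - 1) * X.card.descFactorial r := by rw [Nat.descFactorial_eq_factorial_mul_choose]
      _ ≤ (r - 1) * X.card ^ r := Nat.mul_le_mul_left _ (Nat.descFactorial_le_pow _ _)
  have h3 : ed G X Y - (r - 1) * Y.card ≤ ∑ y ∈ Y, (d y + 1 - r) := by
    have h4 : ed G X Y ≤ ∑ y ∈ Y, ((d y + 1 - r) + (r - 1)) := by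
      rw [ed_eq]
      exact sum_le_sum fun y _ => by
        show d y ≤ _
        omega
    rw [sum_add_distrib, sum_const, smul_eq_mul, mul_comm (Y.card)] at h4
    omega
  obtain ⟨k, rfl⟩ : ∃ k, r = k + 1 := ⟨r - 1, by omega⟩
  have h5 : (∑ y ∈ Y, (d y + 1 - (k + 1))) ^ (k + 1) ≤
      Y.card ^ k * ∑ y ∈ Y, (d y + 1 - (k + 1)) ^ (k + 1) := by
    have := pow_sum_le_card_mul_sum_pow (s := Y) (f := fun y => (((d y + 1 - (k + 1) : ℕ)) : ℝ))
      (fun _ _ => Nat.cast_nonneg _) k
    exact_mod_cast this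
  calc (ed G X Y - (k + 1 - 1) * Y.card) ^ (k + 1)
      ≤ (∑ y ∈ Y, (d y + 1 - (k + 1))) ^ (k + 1) := Nat.pow_le_pow_left h3 _
    _ ≤ Y.card ^ k * ∑ y ∈ Y, (d y + 1 - (k + 1)) ^ (k + 1) := h5
    _ ≤ Y.card ^ k * ((k + 1 - 1) * X.card ^ (k + 1)) := Nat.mul_le_mul_left _ h1
    _ = (k + 1 - 1) * X.card ^ (k + 1) * Y.card ^ (k + 1 - 1) := by
        rw [Nat.add_sub_cancel]; ring

end Pool.Agent.T9h45.SF
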