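import Pool.Agent.T9h45.SF.Gap

set_option autoImplicit false
set_option linter.unusedSectionVars false

/-! # Fixed vectors of linear symmetries -/

namespace Pool.Agent.T9h45.SF

open Finset

section fixed

variable {V : Type} [Fintype V] [DecidableEq V] {H : Type} [Group H] [MulAction H V]

theorem mem_B_one {x : V} : x ∈ B V H 1 ↔ x ∈ MulAction.fixedPoints H V := by
  rw [mem_B, MulAction.mem_fixedPoints]
  constructor
  · intro h a
    exact card_le_one.mp h _ ((mem_O H).mpr ⟨a, rfl⟩) _ ((mem_O H).mpr (MulAction.mem_orbit_self x))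
  · intro h
    rw [card_le_one]
    intro y hy z hz
    obtain ⟨a, rfl⟩ := (mem_O H).mp hy
    obtain ⟨b, rfl⟩ := (mem_O H).mp hz
    show a • x = b • x
    rw [h, h]

theorem card_B_one : (B V H 1).card = Nat.card (MulAction.fixedPoints H V) := by
  rw [Nat.card_coe_set_eq, ← Set.ncard_coe_finset]
  congr 1
  ext x
  exact mem_B_one

theorem card_B (t : ℕ) :
    (B V H t).card = Nat.card {x : V // Nat.card (MulAction.orbit H x) ≤ t} := by
  classical
  rw [Nat.card_eq_fintype_card, Fintype.card_subtype]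
  congr 1
  ext x
  rw [mem_B, card_O, mem_filter]
  exact (and_iff_right (mem_univ _)).symm

end fixed

section vec

variable {K V : Type} [Field K] [AddCommGroup V] [Module K V]

/-- The subspace of the vectors which are fixed by all elements of `L`. -/
def fixSub (L : Subgroup (V ≃ₗ[K] V)) : Submodule K V where
  carrier := {v | ∀ g ∈ L, g v = v}
  add_mem' := by
    intro v w hv hw g hg
    rw [map_add, hv g hg, hw g hg]
  zero_mem' := fun g _ => map_zero g
  smul_mem' := by
    intro a v hv g hg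
    rw [map_smul, hv g hg]

theorem mem_fixSub {L : Subgroup (V ≃ₗ[K] V)} {v : V} : v ∈ fixSub L ↔ ∀ g ∈ L, g v = v := Iff.rfl

theorem fix_card (L : Subgroup (V ≃ₗ[K] V)) :
    Nat.card (MulAction.fixedPoints L V) = Nat.card (fixSub L) := by
  apply Nat.card_congr
  refine Equiv.subtypeEquivRight fun v => ?_
  show v ∈ MulAction.fixedPoints L V ↔ v ∈ fixSub L
  rw [MulAction.mem_fixedPoints, mem_fixSub]
  exact ⟨fun h g hg => h ⟨g, hg⟩, fun h g => h g.1 g.2⟩

/-- the threshold for the size of the field -/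
noncomputable def QQ (r : ℕ) (c : ℝ) : ℝ := max ((4 * ((r : ℝ) - 1) / c) ^ r) (1 / cc r c)

theorem vec [Finite K] [Finite V] (r : ℕ) (hr : 2 ≤ r) (c : ℝ) (hc : 0 < c)
    (hQ : QQ r c < Nat.card K) (G : SimpleGraph V) (S : Set V)
    (hG : ∀ x y, G.Adj x y ↔ y - x ∈ S)
    (hfree : (completeBipartiteGraph (Fin r) (Fin r)).Free G)
    (hS : c * (Nat.card V : ℝ) ^ (1 - 1 / (r : ℝ)) ≤ S.ncard)
    (L : Subgroup (V ≃ₗ[K] V)) (hL : ∀ g ∈ L, ∀ s ∈ S, g s ∈ S) (hne : L ≠ ⊥)
    (horb : ∀ x : V, Nat.card (MulAction.orbit L x) = 1 ∨ r ≤ Nat.card (MulAction.orbit L x)) :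
    r * Module.finrank K (fixSub L) ≤ Module.finrank K V := by
  classical
  have : Fintype V := Fintype.ofFinite V
  have : Fintype K := Fintype.ofFinite K
  have hr2 : (2 : ℝ) ≤ r := by exact_mod_cast hr
  have hact : ∀ (a : L) (x y : V), G.Adj x y → G.Adj (a • x) (a • y) := by
    intro a x y h
    rw [hG] at h ⊢
    have h2 := hL a.1 a.2 _ h
    rw [map_sub] at h2
    exact h2
  have hd : ∀ x, c * (Fintype.card V : ℝ) ^ (1 - 1 / (r : ℝ)) ≤ (G.neighborSet x).ncard := by
    intro x
    have : G.neighborSet x = (x + ·) '' S := by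
      ext y
      rw [SimpleGraph.mem_neighborSet, hG, Set.mem_image]
      constructor
      · intro h
        exact ⟨y - x, h, by abel⟩
      · rintro ⟨s, hs, rfl⟩
        rwa [add_sub_cancel_left]
    rw [this, Set.ncard_image_of_injective _ (add_right_injective x), ← Nat.card_eq_fintype_card]
    exact hS
  have hone : ∀ x : V, (O L x).card ≤ 1 ∨ r ≤ (O L x).card := by
    intro x
    rw [card_O]
    rcases horb x with h | h
    · exact Or.inl h.le
    · exact Or.inr h
  -- the fixed space is proper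
  set w := Module.finrank K (fixSub L) with hw
  set d := Module.finrank K V with hd'
  have hwd : w < d := by
    rw [hw, hd']
    apply Submodule.finrank_lt
    intro htop
    apply hne
    rw [Subgroup.eq_bot_iff_forall]
    intro g hg
    apply LinearEquiv.ext
    intro v
    have : v ∈ fixSub L := by rw [htop]; exact Submodule.mem_top
    exact this g hg
  have hq1 : 1 < Nat.card K := Finite.one_lt_card
  set q : ℕ := Nat.card K with hq
  have hVc : Fintype.card V = q ^ d := by
    rw [hq, Nat.card_eq_fintype_card]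
    exact Module.card_eq_pow_finrank
  have hFc : (B V L 1).card = q ^ w := by
    rw [card_B_one, fix_card, hq, Nat.card_eq_fintype_card, Nat.card_eq_fintype_card]
    exact Module.card_eq_pow_finrank
  have hqpos : (0 : ℝ) < q := by exact_mod_cast (by omega : 0 < q)
  have hlt : (B V L 1).card < Fintype.card V := by
    rw [hFc, hVc]
    exact Nat.pow_lt_pow_right hq1 hwd
  have hcc := cc_pos hr hc
  rcases gap G hact hfree hr hc hd hone hlt with h | ⟨h, -⟩
  · by_contra hcon
    push Not at hcon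
    rw [hFc, hVc] at h
    have h1 : ((q ^ w : ℕ) : ℝ) ^ r ≤ (4 * ((r : ℝ) - 1) / c) ^ r * ((q ^ d : ℕ) : ℝ) := by
      calc ((q ^ w : ℕ) : ℝ) ^ r ≤ (4 * ((r : ℝ) - 1) / c * ((q ^ d : ℕ) : ℝ) ^ (1 / (r : ℝ))) ^ r :=
            pow_le_pow_left₀ (Nat.cast_nonneg _) h r
        _ = _ := by
          rw [mul_pow]
          congr 1
          rw [← Real.rpow_natCast (((q ^ d : ℕ) : ℝ) ^ (1 / (r : ℝ))), ← Real.rpow_mul (Nat.cast_nonneg _)]
          have : (r : ℝ) ≠ 0 := by linarith
          rw [one_div, inv_mul_cancel₀ this, Real.rpow_one]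
    have h2 : ((q : ℝ)) ^ (d + 1) ≤ ((q ^ w : ℕ) : ℝ) ^ r := by
      rw [Nat.cast_pow, ← pow_mul]
      exact pow_le_pow_right₀ (by exact_mod_cast hq1.le) (by rw [mul_comm w r]; omega)
    have h3 : (q : ℝ) * (q : ℝ) ^ d ≤ (4 * ((r : ℝ) - 1) / c) ^ r * (q : ℝ) ^ d := by
      calc (q : ℝ) * (q : ℝ) ^ d = (q : ℝ) ^ (d + 1) := by ring
        _ ≤ _ := h2.trans h1
        _ = _ := by rw [Nat.cast_pow]
    have h4 : (q : ℝ) ≤ (4 * ((r : ℝ) - 1) / c) ^ r := le_of_mul_le_mul_right h3 (by positivity)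
    have h5 := le_max_left ((4 * ((r : ℝ) - 1) / c) ^ r) (1 / cc r c)
    rw [QQ] at hQ
    linarith
  · exfalso
    rw [hFc, hVc] at h
    have h1 : ((q ^ w : ℕ) : ℝ) * q ≤ ((q ^ d : ℕ) : ℝ) := by
      have : q ^ w * q ≤ q ^ d := by
        rw [← pow_succ]; exact Nat.pow_le_pow_right (by omega) hwd
      exact_mod_cast this
    have h2 : cc r c * ((q ^ d : ℕ) : ℝ) * q ≤ ((q ^ d : ℕ) : ℝ) :=
      (mul_le_mul_of_nonneg_right h hqpos.le).trans h1
    have h3 : (0 : ℝ) < ((q ^ d : ℕ) : ℝ) := by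
      have : 0 < q ^ d := pow_pos (by omega) _
      exact_mod_cast this
    have h4 : cc r c * q ≤ 1 := by
      have : (cc r c * q) * ((q ^ d : ℕ) : ℝ) ≤ 1 * ((q ^ d : ℕ) : ℝ) := by
        calc (cc r c * q) * ((q ^ d : ℕ) : ℝ) = cc r c * ((q ^ d : ℕ) : ℝ) * q := by ring
          _ ≤ _ := h2
          _ = _ := (one_mul _).symm
      exact le_of_mul_le_mul_right this h3
    have h5 := le_max_right ((4 * ((r : ℝ) - 1) / c) ^ r) (1 / cc r c)
    rw [QQ] at hQ
    have h6 : 1 / cc r c < q := lt_of_le_of_lt h5 hQ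
    rw [div_lt_iff₀ hcc, mul_comm] at h6
    linarith

end vec

end Pool.Agent.T9h45.SF
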